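import Mathlib

/-!
Random fields on `ℤ^d` with finitely many values: definitions.
-/

set_option autoImplicit false

namespace Pool.Agent.H60.FD

open MeasureTheory ProbabilityTheory

/-- Configurations on `ℤ^d` with values in `{0, …, q - 1}`. A random field is given by its law, a
probability measure on the configurations. -/
abbrev Cfg (d q : ℕ) : Type := (Fin d → ℤ) → Fin q

/-- The graph distance of `ℤ^d` (points at Euclidean distance 1 are adjacent). -/
def gd {d : ℕ} (u v : Fin d → ℤ) : ℤ := ∑ i, |u i - v i|

/-- The `σ`-algebra generated by the values at the sites of `A`. -/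
def sg {d q : ℕ} (A : Set (Fin d → ℤ)) : MeasurableSpace (Cfg d q) :=
  MeasurableSpace.comap (fun (x : Cfg d q) (v : A) => x v) MeasurableSpace.pi

/-- The outer boundary of `A`. -/
def bd {d : ℕ} (A : Set (Fin d → ℤ)) : Set (Fin d → ℤ) := {v | v ∉ A ∧ ∃ u ∈ A, gd u v = 1}

/-- The law is invariant under the translation by `t`. -/
def Inv {d q : ℕ} (P : Measure (Cfg d q)) (t : Fin d → ℤ) : Prop :=
  P.map (fun (x : Cfg d q) (v : Fin d → ℤ) => x (v + t)) = P

/-- Finitely dependent: for some `k`, the families of the values on sets of sites at distance at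
least `k` are independent. -/
def FinDep {d q : ℕ} (P : Measure (Cfg d q)) : Prop :=
  ∃ k : ℕ, ∀ A B : Set (Fin d → ℤ), (∀ a ∈ A, ∀ b ∈ B, (k : ℤ) ≤ gd a b) →
    Indep (sg A) (sg B) P

/-- Markov random field: for every finite set `A` of sites, the conditional law of the values on
`A` given the values outside `A` is almost surely the conditional law given the values on the
boundary of `A`. -/
def Markov {d q : ℕ} (P : Measure (Cfg d q)) : Prop :=
  ∀ (A : Finset (Fin d → ℤ)) (E : Set (Cfg d q)), MeasurableSet[sg (A : Set (Fin d → ℤ))] E →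
    P[E.indicator (fun _ => (1 : ℝ)) | sg (A : Set (Fin d → ℤ))ᶜ] =ᵐ[P]
      P[E.indicator (fun _ => (1 : ℝ)) | sg (bd (A : Set (Fin d → ℤ)))]

/-- The support: the configurations all of whose restrictions to finite sets have positive
probability. -/
def Supp {d q : ℕ} (P : Measure (Cfg d q)) : Set (Cfg d q) :=
  {x | ∀ B : Finset (Fin d → ℤ), 0 < P {y | ∀ v ∈ B, y v = x v}}

/-- The configuration is a proper colouring. -/
def Proper {d q : ℕ} (x : Cfg d q) : Prop := ∀ u v : Fin d → ℤ, gd u v = 1 → x u ≠ x v

end Pool.Agent.H60.FD
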