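import Mathlib

/-!
Functions on words with a finite-dimensional space of shifts: if the function factorises over long
gaps, then some letter can be repeated arbitrarily often.
-/

set_option autoImplicit false

namespace Pool.Agent.H60.FD

open Finset

/-- The sum of nilpotent operators on a finite-dimensional space is not a projection of rank one
up to a nilpotent operator. -/
theorem abs_lin {W α : Type} [AddCommGroup W] [Module ℝ W] [FiniteDimensional ℝ W] [Fintype α]
    (t : α → Module.End ℝ W) (A : Module.End ℝ W) (hA : A = ∑ c, t c) (φ : W →ₗ[ℝ] ℝ) (w : W)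
    (hw : φ w = 1) (h1 : A w = w) (h2 : ∀ x, φ (A x) = φ x) {m : ℕ} (hm : m ≠ 0)
    (h3 : ∀ x, (A ^ m) x = φ x • w) : ∃ c, ¬ IsNilpotent (t c) := by
  by_contra hcon
  push Not at hcon
  have h4 : LinearMap.trace ℝ W A = 0 := by
    rw [hA, map_sum]
    exact Finset.sum_eq_zero fun c _ => (LinearMap.isNilpotent_trace_of_isNilpotent (hcon c)).eq_zero
  set Q : Module.End ℝ W := φ.smulRight w with hQ
  have hQa : ∀ x, Q x = φ x • w := fun x => rfl
  have h5 : A * Q = Q := by
    apply LinearMap.ext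
    intro x
    rw [Module.End.mul_apply, hQa, map_smul, h1]
  have h6 : Q * A = Q := by
    apply LinearMap.ext
    intro x
    rw [Module.End.mul_apply, hQa, hQa, h2]
  have h7 : Q * Q = Q := by
    apply LinearMap.ext
    intro x
    rw [Module.End.mul_apply, hQa, hQa, map_smul, hw, smul_eq_mul, mul_one]
  have h8 : ∀ j : ℕ, Q * A ^ j = Q := by
    intro j
    induction j with
    | zero => rw [pow_zero, mul_one]
    | succ j ih => rw [pow_succ, ← mul_assoc, ih, h6]
  have h9 : ∀ j : ℕ, (A - Q) ^ (j + 1) = A ^ (j + 1) - Q := by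
    intro j
    induction j with
    | zero => rw [zero_add, pow_one, pow_one]
    | succ j ih =>
      rw [pow_succ', ih, sub_mul, mul_sub, mul_sub, h5, h7, h8, pow_succ' A (j + 1)]
      abel
  have h10 : LinearMap.trace ℝ W (A - Q) = 0 := by
    obtain ⟨j, rfl⟩ := Nat.exists_eq_succ_of_ne_zero hm
    refine (LinearMap.isNilpotent_trace_of_isNilpotent ⟨j + 1, ?_⟩).eq_zero
    rw [h9]
    apply LinearMap.ext
    intro x
    rw [LinearMap.sub_apply, LinearMap.zero_apply, hQa]
    exact sub_eq_zero.2 (h3 x)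
  rw [map_sub, h4, hQ, LinearMap.trace_smulRight, hw] at h10
  norm_num at h10

variable {α : Type}

/-- the operator which reads the letter `c` -/
def T (c : α) : (List α → ℝ) →ₗ[ℝ] (List α → ℝ) := LinearMap.funLeft ℝ ℝ fun v => c :: v

theorem T_apply (c : α) (f : List α → ℝ) (v : List α) : T c f v = f (c :: v) := rfl

theorem T_pow (c : α) (n : ℕ) (f : List α → ℝ) (v : List α) :
    ((T c) ^ n) f v = f (List.replicate n c ++ v) := by
  induction n generalizing v with
  | zero => rfl
  | succ n ih =>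
    rw [pow_succ', Module.End.mul_apply, T_apply, ih, List.replicate_succ', List.append_assoc]
    rfl

/-- the function with a prefix -/
def H (p : List α → ℝ) (u : List α) : List α → ℝ := fun v => p (u ++ v)

theorem T_H (p : List α → ℝ) (c : α) (u : List α) : T c (H p u) = H p (u ++ [c]) := by
  funext v
  rw [T_apply]
  unfold H
  rw [List.append_assoc]
  rfl

/-- the space of the functions -/
def V (p : List α → ℝ) : Submodule ℝ (List α → ℝ) := Submodule.span ℝ (Set.range (H p))

theorem H_mem (p : List α → ℝ) (u : List α) : H p u ∈ V p :=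
  Submodule.subset_span ⟨u, rfl⟩

theorem T_mem (p : List α → ℝ) (c : α) (f : List α → ℝ) (hf : f ∈ V p) : T c f ∈ V p := by
  have h : (V p).map (T c) ≤ V p := by
    unfold V
    rw [Submodule.map_span_le]
    rintro _ ⟨u, rfl⟩
    rw [T_H]
    exact H_mem p _
  exact h ⟨f, hf, rfl⟩

/-- the operator on the space `V` -/
def Tv (p : List α → ℝ) (c : α) : Module.End ℝ (V p) := (T c).restrict (T_mem p c)

theorem coe_Tv (p : List α → ℝ) (c : α) (f : V p) : ((Tv p c f : V p) : List α → ℝ) = T c f := rfl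

theorem coe_Tv_pow (p : List α → ℝ) (c : α) (n : ℕ) (f : V p) :
    ((((Tv p c) ^ n) f : V p) : List α → ℝ) = ((T c) ^ n) (f : List α → ℝ) := by
  induction n with
  | zero => rfl
  | succ n ih => rw [pow_succ', pow_succ', Module.End.mul_apply, Module.End.mul_apply, coe_Tv, ih]

/-- the evaluation at the empty word -/
def ev (p : List α → ℝ) : V p →ₗ[ℝ] ℝ :=
  (LinearMap.proj ([] : List α)).comp (V p).subtype

theorem ev_apply (p : List α → ℝ) (f : V p) : ev p f = (f : List α → ℝ) [] := rfl

/-- two linear maps on `V` which agree on the vectors `H p u` -/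
theorem ext_V {p : List α → ℝ} {W : Type} [AddCommGroup W] [Module ℝ W] {F G : V p →ₗ[ℝ] W}
    (h : ∀ u, F ⟨H p u, H_mem p u⟩ = G ⟨H p u, H_mem p u⟩) (f : V p) : F f = G f := by
  obtain ⟨f, hf⟩ := f
  unfold V at hf
  induction hf using Submodule.span_induction with
  | mem x hx =>
    obtain ⟨u, rfl⟩ := hx
    exact h u
  | zero =>
    have : (⟨0, Submodule.zero_mem _⟩ : V p) = 0 := rfl
    exact (congrArg F this).trans ((map_zero F).trans ((congrArg G this).trans (map_zero G)).symm)
  | add x y hx hy ihx ihy =>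
    have e : (⟨x + y, Submodule.add_mem _ hx hy⟩ : V p) = ⟨x, hx⟩ + ⟨y, hy⟩ := rfl
    calc F ⟨x + y, Submodule.add_mem _ hx hy⟩ = F (⟨x, hx⟩ + ⟨y, hy⟩) := congrArg F e
      _ = F ⟨x, hx⟩ + F ⟨y, hy⟩ := map_add F _ _
      _ = G ⟨x, hx⟩ + G ⟨y, hy⟩ := by rw [ihx, ihy]
      _ = G (⟨x, hx⟩ + ⟨y, hy⟩) := (map_add G _ _).symm
      _ = _ := (congrArg G e).symm
  | smul a x hx ihx =>
    have e : (⟨a • x, Submodule.smul_mem _ a hx⟩ : V p) = a • ⟨x, hx⟩ := rfl
    calc F ⟨a • x, Submodule.smul_mem _ a hx⟩ = F (a • ⟨x, hx⟩) := congrArg F e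
      _ = a • F ⟨x, hx⟩ := map_smul F _ _
      _ = a • G ⟨x, hx⟩ := by rw [ihx]
      _ = G (a • ⟨x, hx⟩) := (map_smul G _ _).symm
      _ = _ := (congrArg G e).symm

variable [Fintype α]

/-- reading one letter, whichever it is -/
def Av (p : List α → ℝ) : Module.End ℝ (V p) := ∑ c, Tv p c

theorem Av_apply (p : List α → ℝ) (f : V p) (v : List α) :
    ((Av p f : V p) : List α → ℝ) v = ∑ c, (f : List α → ℝ) (c :: v) := by
  unfold Av
  rw [LinearMap.sum_apply, AddSubmonoidClass.coe_finsetSum, Finset.sum_apply]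
  rfl

theorem main {p : List α → ℝ} (h1 : p [] = 1)
    (hl : ∀ v, ∑ c, p (c :: v) = p v) (hr : ∀ u, ∑ c, p (u ++ [c]) = p u)
    {m : ℕ} (hm : m ≠ 0)
    (hk : ∀ u v, ((((Av p) ^ m) ⟨H p u, H_mem p u⟩ : V p) : List α → ℝ) v = p u * p v)
    (hfin : FiniteDimensional ℝ (V p)) :
    ∃ c, ∀ n, ∃ u v, p (u ++ (List.replicate n c ++ v)) ≠ 0 := by
  have g1 : Av p ⟨H p [], H_mem p []⟩ = ⟨H p [], H_mem p []⟩ := by
    apply Subtype.ext
    funext v
    rw [Av_apply]
    exact hl v
  have g2 : ∀ f, ev p (Av p f) = ev p f := by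
    intro f
    have := ext_V (F := (ev p).comp (Av p)) (G := ev p) ?_ f
    · exact this
    · intro u
      rw [LinearMap.comp_apply, ev_apply, ev_apply, Av_apply]
      show ∑ c, p (u ++ [c]) = p (u ++ [])
      rw [hr, List.append_nil]
  have g3 : ∀ f, (Av p ^ m) f = ev p f • (⟨H p [], H_mem p []⟩ : V p) := by
    intro f
    have := ext_V (F := Av p ^ m) (G := (ev p).smulRight ⟨H p [], H_mem p []⟩) ?_ f
    · exact this
    · intro u
      apply Subtype.ext
      funext v
      rw [hk u v]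
      show p u * p v = p (u ++ []) * p ([] ++ v)
      rw [List.append_nil, List.nil_append]
  have h1' : ev p ⟨H p [], H_mem p []⟩ = 1 := h1
  obtain ⟨c, hc⟩ := abs_lin (Tv p) (Av p) rfl (ev p) ⟨H p [], H_mem p []⟩ h1' g1 g2 hm g3
  refine ⟨c, fun n => ?_⟩
  by_contra hcon
  push Not at hcon
  apply hc
  refine ⟨n, ?_⟩
  apply LinearMap.ext
  apply ext_V
  intro u
  apply Subtype.ext
  funext v
  rw [coe_Tv_pow, T_pow]
  exact hcon u v

end Pool.Agent.H60.FD
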