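import Mathlib
import Pool.Agent.H60.FD.Defs

/-!
Events of random fields.
-/

set_option autoImplicit false

namespace Pool.Agent.H60.FD

open MeasureTheory ProbabilityTheory

variable {d q : ℕ}

theorem sg_le (A : Set (Fin d → ℤ)) : (sg A : MeasurableSpace (Cfg d q)) ≤ MeasurableSpace.pi := by
  unfold sg
  apply Measurable.comap_le
  exact measurable_pi_lambda _ fun v => measurable_pi_apply _

theorem sg_mono {A B : Set (Fin d → ℤ)} (h : A ⊆ B) :
    (sg A : MeasurableSpace (Cfg d q)) ≤ sg B := by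
  unfold sg
  rintro _ ⟨E, hE, rfl⟩
  refine ⟨(fun (y : B → Fin q) (v : A) => y ⟨v, h v.2⟩) ⁻¹' E, ?_, rfl⟩
  exact (measurable_pi_lambda _ fun v => measurable_pi_apply _) hE

theorem meas_site {A : Set (Fin d → ℤ)} {v : Fin d → ℤ} (hv : v ∈ A) (c : Fin q) :
    MeasurableSet[sg A] {x : Cfg d q | x v = c} := by
  refine ⟨(fun y : A → Fin q => y ⟨v, hv⟩) ⁻¹' {c}, ?_, rfl⟩
  exact (measurable_pi_apply (⟨v, hv⟩ : A)) (MeasurableSet.singleton c)

/-- the event that the values on `B` are those of `s` -/
def cyl (B : Set (Fin d → ℤ)) (s : Cfg d q) : Set (Cfg d q) := {x | ∀ v ∈ B, x v = s v}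

theorem meas_cyl {A B : Set (Fin d → ℤ)} (h : B ⊆ A) (s : Cfg d q) :
    MeasurableSet[sg A] (cyl B s) := by
  have : cyl B s = ⋂ v ∈ B, {x : Cfg d q | x v = s v} := by
    ext x
    simp [cyl]
  rw [this]
  exact MeasurableSet.biInter (Set.to_countable B) fun v hv => meas_site (h hv) _

/-- a function which is measurable with respect to the values on `B` is constant on `cyl B s` -/
theorem const_cyl {B : Set (Fin d → ℤ)} {g : Cfg d q → ℝ} (hg : Measurable[sg B] g)
    {s x : Cfg d q} (hx : x ∈ cyl B s) : g x = g s := by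
  obtain ⟨E, hE, hE'⟩ := hg (MeasurableSet.singleton (g s))
  have h1 : s ∈ g ⁻¹' {g s} := rfl
  rw [← hE'] at h1
  have h2 : (fun (v : B) => x v) = fun (v : B) => s v := funext fun v => hx v v.2
  have h3 : x ∈ g ⁻¹' {g s} := by
    rw [← hE']
    show (fun (v : B) => x v) ∈ E
    rw [h2]
    exact h1
  exact h3

theorem markov_event {P : Measure (Cfg d q)} [IsProbabilityMeasure P] (hP : Markov P)
    (A : Finset (Fin d → ℤ)) {E F : Set (Cfg d q)}
    (hE : MeasurableSet[sg (A : Set (Fin d → ℤ))] E)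
    (hF : MeasurableSet[sg (A : Set (Fin d → ℤ))ᶜ] F) (s : Cfg d q) :
    P.real (E ∩ (F ∩ cyl (bd (A : Set (Fin d → ℤ))) s)) * P.real (cyl (bd (A : Set (Fin d → ℤ))) s) =
      P.real (E ∩ cyl (bd (A : Set (Fin d → ℤ))) s) *
        P.real (F ∩ cyl (bd (A : Set (Fin d → ℤ))) s) := by
  set B : Set (Fin d → ℤ) := bd (A : Set (Fin d → ℤ)) with hB
  have hBA : B ⊆ (A : Set (Fin d → ℤ))ᶜ := fun v hv => hv.1
  have hC1 : MeasurableSet[sg B] (cyl B s) := meas_cyl (le_refl _) s
  have hC2 : MeasurableSet[sg (A : Set (Fin d → ℤ))ᶜ] (cyl B s) := meas_cyl hBA s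
  have hEm : MeasurableSet E := sg_le _ _ hE
  have hFm : MeasurableSet F := sg_le _ _ hF
  have hCm : MeasurableSet (cyl B s) := sg_le _ _ hC1
  have hint : Integrable (E.indicator (fun _ => (1 : ℝ))) P :=
    (integrable_const (1 : ℝ)).indicator hEm
  set g := P[E.indicator (fun _ => (1 : ℝ)) | sg B] with hg
  have hgm : Measurable[sg B] g := stronglyMeasurable_condExp.measurable
  have key : ∀ G : Set (Cfg d q), MeasurableSet G →
      ∫ x in G ∩ cyl B s, g x ∂P = g s * P.real (G ∩ cyl B s) := by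
    intro G hG
    have h1 : ∫ x in G ∩ cyl B s, g x ∂P = ∫ x in G ∩ cyl B s, g s ∂P :=
      setIntegral_congr_fun (hG.inter hCm) fun x hx => const_cyl hgm hx.2
    rw [h1, setIntegral_const, smul_eq_mul, mul_comm]
  have h1 : P.real (E ∩ (F ∩ cyl B s)) = g s * P.real (F ∩ cyl B s) := by
    rw [← key F hFm]
    have h2 : ∫ x in F ∩ cyl B s, g x ∂P =
        ∫ x in F ∩ cyl B s, (P[E.indicator (fun _ => (1 : ℝ)) |
          sg (A : Set (Fin d → ℤ))ᶜ]) x ∂P := by
      refine setIntegral_congr_ae (hFm.inter hCm) ?_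
      filter_upwards [hP A E hE] with x hx _
      exact hx.symm
    rw [h2, setIntegral_condExp (sg_le _) hint (hF.inter hC2), setIntegral_indicator hEm,
      setIntegral_const, smul_eq_mul, mul_one, Set.inter_comm E]
  have h2 : P.real (E ∩ cyl B s) = g s * P.real (cyl B s) := by
    have h3 := key Set.univ MeasurableSet.univ
    rw [Set.univ_inter] at h3
    rw [← h3, hg, setIntegral_condExp (sg_le _) hint hC1, setIntegral_indicator hEm,
      setIntegral_const, smul_eq_mul, mul_one, Set.inter_comm E]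
  rw [h1, h2]
  ring

/-- law of total probability for the value at a site -/
theorem sum_site {P : Measure (Cfg d q)} [IsProbabilityMeasure P] (v : Fin d → ℤ)
    {E : Set (Cfg d q)} (hE : MeasurableSet E) :
    ∑ c, P.real ({x | x v = c} ∩ E) = P.real E := by
  have h1 : ∀ c, MeasurableSet {x : Cfg d q | x v = c} := fun c =>
    (MeasurableSet.singleton c).preimage (measurable_pi_apply v)
  rw [← measureReal_biUnion_finset]
  · congr 1
    ext x
    simp
  · intro a _ b _ hab
    rw [Function.onFun, Set.disjoint_left]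
    intro x hx hx'
    exact hab (hx.1.symm.trans hx'.1)
  · intro c _
    exact (h1 c).inter hE

/-- law of total probability for the values on a finite set -/
theorem sum_pat {P : Measure (Cfg d q)} [IsProbabilityMeasure P] (S : Finset (Fin d → ℤ))
    {E : Set (Cfg d q)} (hE : MeasurableSet E) :
    ∑ r : S → Fin q, P.real ({x | ∀ v : S, x v = r v} ∩ E) = P.real E := by
  have h1 : ∀ r : S → Fin q, MeasurableSet {x : Cfg d q | ∀ v : S, x v = r v} := by
    intro r
    have : {x : Cfg d q | ∀ v : S, x v = r v} = ⋂ v : S, {x : Cfg d q | x v = r v} := by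
      ext x
      simp
    rw [this]
    exact MeasurableSet.iInter fun v =>
      (MeasurableSet.singleton (r v)).preimage (measurable_pi_apply (v : Fin d → ℤ))
  rw [← measureReal_biUnion_finset]
  · congr 1
    ext x
    constructor
    · intro hx
      simp only [Finset.mem_univ, Set.iUnion_true, Set.mem_iUnion] at hx
      obtain ⟨r, hr⟩ := hx
      exact hr.2
    · intro hx
      simp only [Finset.mem_univ, Set.iUnion_true, Set.mem_iUnion]
      exact ⟨fun v => x v, fun v => rfl, hx⟩
  · intro a _ b _ hab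
    rw [Function.onFun, Set.disjoint_left]
    intro x hx hx'
    exact hab (funext fun v => (hx.1 v).symm.trans (hx'.1 v))
  · intro c _
    exact (h1 c).inter hE

/-- there is a pattern of positive probability -/
theorem exists_pat {P : Measure (Cfg d q)} [IsProbabilityMeasure P] (S : Finset (Fin d → ℤ)) :
    ∃ s : Cfg d q, 0 < P.real (cyl (S : Set (Fin d → ℤ)) s) := by
  have h1 := sum_pat (P := P) S MeasurableSet.univ
  rw [probReal_univ] at h1
  obtain ⟨r, hr⟩ : ∃ r : S → Fin q, P.real ({x | ∀ v : S, x v = r v} ∩ Set.univ) ≠ 0 := by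
    by_contra hcon
    push Not at hcon
    simp only [hcon, Finset.sum_const_zero] at h1
    exact zero_ne_one h1
  rw [Set.inter_univ] at hr
  have hne : {x : Cfg d q | ∀ v : S, x v = r v}.Nonempty := by
    by_contra hcon
    rw [Set.not_nonempty_iff_eq_empty] at hcon
    rw [hcon, measureReal_empty] at hr
    exact hr rfl
  obtain ⟨s, hs⟩ := hne
  refine ⟨s, ?_⟩
  have h2 : cyl (S : Set (Fin d → ℤ)) s = {x : Cfg d q | ∀ v : S, x v = r v} := by
    ext x
    constructor
    · intro hx v
      rw [hx v v.2]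
      exact hs v
    · intro hx v hv
      rw [hx ⟨v, hv⟩]
      exact (hs ⟨v, hv⟩).symm
  rw [h2]
  exact lt_of_le_of_ne measureReal_nonneg (Ne.symm hr)

end Pool.Agent.H60.FD
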