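import Mathlib
import Pool.Agent.H60.FD.Prob
import Pool.Agent.H60.FD.Lin

/-!
The words on a line of a random field.
-/

set_option autoImplicit false

namespace Pool.Agent.H60.FD

open MeasureTheory ProbabilityTheory

variable {d q : ℕ}

/-- the point `j` of the line in the direction `i` -/
def ln (i : Fin d) (j : ℤ) : Fin d → ℤ := Pi.single i j

theorem ln_self (i : Fin d) (j : ℤ) : ln i j i = j := by simp [ln]

theorem ln_ne {i l : Fin d} (h : l ≠ i) (j : ℤ) : ln i j l = 0 := by simp [ln, h]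

theorem ln_add (i : Fin d) (j t : ℤ) : ln i j + ln i t = ln i (j + t) := by
  unfold ln
  rw [Pi.single_add]

/-- the word `w` is read on the line from the point `j` on -/
def Ev (i : Fin d) : ℤ → List (Fin q) → Set (Cfg d q)
  | _, [] => Set.univ
  | j, c :: w => {x | x (ln i j) = c} ∩ Ev i (j + 1) w

theorem Ev_append (i : Fin d) (j : ℤ) (u v : List (Fin q)) :
    Ev i j (u ++ v) = Ev i j u ∩ Ev i (j + u.length) v := by
  induction u generalizing j with
  | nil => simp [Ev]
  | cons c u ih =>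
    rw [List.cons_append, Ev, ih, Ev, Set.inter_assoc, List.length_cons]
    have : j + 1 + (u.length : ℤ) = j + ((u.length + 1 : ℕ) : ℤ) := by push_cast; ring
    rw [this]

theorem Ev_meas (i : Fin d) {A : Set (Fin d → ℤ)} (w : List (Fin q)) (j : ℤ)
    (h : ∀ t : ℤ, j ≤ t → t < j + w.length → ln i t ∈ A) : MeasurableSet[sg A] (Ev i j w) := by
  induction w generalizing j with
  | nil => exact MeasurableSet.univ
  | cons c w ih =>
    rw [List.length_cons] at h
    push_cast at h
    exact (meas_site (h j le_rfl (by have := Int.natCast_nonneg w.length; omega)) c).inter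
      (ih (j + 1) fun t h1 h2 => h t (by omega) (by omega))

theorem Ev_meas' (i : Fin d) (w : List (Fin q)) (j : ℤ) : MeasurableSet (Ev i j w) :=
  sg_le Set.univ _ (Ev_meas i w j fun _ _ _ => Set.mem_univ _)

theorem Ev_replicate (i : Fin d) (c : Fin q) (n : ℕ) (j : ℤ) :
    Ev i j (List.replicate n c) = {x | ∀ t : ℕ, t < n → x (ln i (j + t)) = c} := by
  induction n generalizing j with
  | zero =>
    ext x
    simp [Ev]
  | succ n ih =>
    rw [List.replicate_succ, Ev, ih]
    ext x
    constructor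
    · rintro ⟨h1, h2⟩ t ht
      rcases Nat.eq_zero_or_pos t with rfl | h0
      · simpa using h1
      · have h3 := h2 (t - 1) (by omega)
        have h4 : j + 1 + ((t - 1 : ℕ) : ℤ) = j + t := by omega
        rwa [h4] at h3
    · intro h
      refine ⟨by simpa using h 0 (Nat.succ_pos n), fun t ht => ?_⟩
      have h3 := h (t + 1) (by omega)
      have h4 : j + ((t + 1 : ℕ) : ℤ) = j + 1 + t := by push_cast; ring
      rwa [h4] at h3

theorem Ev_shift {P : Measure (Cfg d q)} {i : Fin d} (hP : Inv P (ln i 1)) (j : ℤ)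
    (w : List (Fin q)) : P.real (Ev i (j + 1) w) = P.real (Ev i j w) := by
  have hm : Measurable fun (x : Cfg d q) (v : Fin d → ℤ) => x (v + ln i 1) :=
    measurable_pi_lambda _ fun v => measurable_pi_apply _
  have h1 : (fun (x : Cfg d q) (v : Fin d → ℤ) => x (v + ln i 1)) ⁻¹' Ev i j w =
      Ev i (j + 1) w := by
    induction w generalizing j with
    | nil => rfl
    | cons c w ih =>
      rw [Ev, Set.preimage_inter, ih, Ev]
      congr 1
      ext x
      show x (ln i j + ln i 1) = c ↔ x (ln i (j + 1)) = c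
      rw [ln_add]
  rw [← h1, ← map_measureReal_apply hm (Ev_meas' i w j)]
  rw [show P.map (fun (x : Cfg d q) (v : Fin d → ℤ) => x (v + ln i 1)) = P from hP]

theorem Ev_const {P : Measure (Cfg d q)} {i : Fin d} (hP : Inv P (ln i 1)) (j : ℤ)
    (w : List (Fin q)) : P.real (Ev i j w) = P.real (Ev i 0 w) := by
  induction j using Int.induction_on with
  | zero => rfl
  | succ n ih => rw [Ev_shift hP, ih]
  | pred n ih =>
    have h := Ev_shift hP (-(n : ℤ) - 1) w
    rw [sub_add_cancel] at h
    rw [← h, ih]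

/-- the probability of a word -/
noncomputable def pw (P : Measure (Cfg d q)) (i : Fin d) (w : List (Fin q)) : ℝ :=
  P.real (Ev i 0 w)

theorem gd_ge {u v : Fin d → ℤ} (j : Fin d) : |u j - v j| ≤ gd u v :=
  Finset.single_le_sum (f := fun j => |u j - v j|) (fun _ _ => abs_nonneg _) (Finset.mem_univ j)

theorem indep_line {P : Measure (Cfg d q)} {i : Fin d} (hP : Inv P (ln i 1)) {k : ℕ}
    (hk : ∀ A B : Set (Fin d → ℤ), (∀ a ∈ A, ∀ b ∈ B, (k : ℤ) ≤ gd a b) →
      Indep (sg A) (sg B) P) (u v : List (Fin q)) {m : ℕ} (hm : k ≤ m) :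
    P.real (Ev i 0 u ∩ Ev i (u.length + m) v) = pw P i u * pw P i v := by
  have h1 := hk (ln i '' {t | t < u.length}) (ln i '' {t | (u.length + m : ℤ) ≤ t}) ?_
  · have h2 := (Indep_iff _ _ _).1 h1 (Ev i 0 u) (Ev i (u.length + m) v) ?_ ?_
    · unfold pw
      rw [← Ev_const hP (u.length + m) v]
      unfold Measure.real
      rw [h2, ENNReal.toReal_mul]
    · exact Ev_meas i u 0 fun t _ h => ⟨t, by simpa using h, rfl⟩
    · exact Ev_meas i v _ fun t h _ => ⟨t, h, rfl⟩
  · rintro _ ⟨s, hs, rfl⟩ _ ⟨t, ht, rfl⟩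
    refine le_trans ?_ (gd_ge i)
    rw [ln_self, ln_self]
    have hs' : s < u.length := hs
    have ht' : (u.length + m : ℤ) ≤ t := ht
    have : (k : ℤ) ≤ m := by exact_mod_cast hm
    rw [abs_of_nonpos (by omega)]
    omega

theorem Av_pow {P : Measure (Cfg d q)} [IsProbabilityMeasure P] {i : Fin d} (m : ℕ)
    (u v : List (Fin q)) :
    ((((Av (pw P i)) ^ m) ⟨H (pw P i) u, H_mem _ u⟩ : V (pw P i)) : List (Fin q) → ℝ) v =
      P.real (Ev i 0 u ∩ Ev i (u.length + m) v) := by
  induction m generalizing v with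
  | zero =>
    rw [pow_zero, Module.End.one_apply]
    show P.real (Ev i 0 (u ++ v)) = _
    rw [Ev_append]
    simp
  | succ m ih =>
    rw [pow_succ', Module.End.mul_apply, Av_apply]
    simp_rw [ih]
    rw [← sum_site (P := P) (ln i (u.length + m)) ((Ev_meas' i u 0).inter (Ev_meas' i v _))]
    refine Finset.sum_congr rfl fun c _ => ?_
    rw [Ev]
    congr 1
    have : (u.length : ℤ) + m + 1 = u.length + ((m + 1 : ℕ) : ℤ) := by push_cast; ring
    rw [this, Set.inter_left_comm]

/-- The main theorem, with the finite dimension as a hypothesis. -/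
theorem words {P : Measure (Cfg d q)} [IsProbabilityMeasure P] {i : Fin d} (hP : Inv P (ln i 1))
    {k : ℕ} (hk : ∀ A B : Set (Fin d → ℤ), (∀ a ∈ A, ∀ b ∈ B, (k : ℤ) ≤ gd a b) →
      Indep (sg A) (sg B) P) (hfin : FiniteDimensional ℝ (V (pw P i))) :
    ∃ c : Fin q, ∀ n : ℕ, 0 < P.real {x | ∀ t : ℕ, t < n → x (ln i t) = c} := by
  have hk' : ∀ u v, ((((Av (pw P i)) ^ (k + 1)) ⟨H (pw P i) u, H_mem _ u⟩ : V (pw P i)) :
      List (Fin q) → ℝ) v = pw P i u * pw P i v := by
    intro u v
    rw [Av_pow]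
    exact indep_line hP hk u v (Nat.le_succ k)
  have g1 : ∀ v, ∑ c, pw P i (c :: v) = pw P i v := by
    intro v
    unfold pw
    simp only [Ev]
    rw [sum_site _ (Ev_meas' i v _), Ev_const hP]
  have g2 : ∀ u, ∑ c, pw P i (u ++ [c]) = pw P i u := by
    intro u
    unfold pw
    simp only [Ev_append, Ev, Set.inter_univ, zero_add]
    simp_rw [Set.inter_comm (Ev i 0 u)]
    rw [sum_site _ (Ev_meas' i u _)]
  obtain ⟨c, hc⟩ := main (p := pw P i) (probReal_univ) g1 g2 (Nat.succ_ne_zero k) hk' hfin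
  refine ⟨c, fun n => ?_⟩
  obtain ⟨u, v, huv⟩ := hc n
  have h1 : pw P i (u ++ (List.replicate n c ++ v)) ≤
      P.real {x | ∀ t : ℕ, t < n → x (ln i t) = c} := by
    have h2 : P.real {x | ∀ t : ℕ, t < n → x (ln i t) = c} =
        P.real (Ev i (0 + u.length) (List.replicate n c)) := by
      rw [Ev_const hP, Ev_replicate]
      simp
    rw [h2]
    unfold pw
    rw [Ev_append, Ev_append]
    exact measureReal_mono (Set.inter_subset_right.trans Set.inter_subset_left)
  exact lt_of_lt_of_le (lt_of_le_of_ne measureReal_nonneg (Ne.symm huv)) h1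

end Pool.Agent.H60.FD
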