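import Mathlib
import Pool.Agent.H60.FD.Words

/-!
For a finitely dependent Markov random field the words on a line have finite rank: the box around
a half line is conditioned on its walls.
-/

set_option autoImplicit false

namespace Pool.Agent.H60.FD

open MeasureTheory ProbabilityTheory Filter Topology

theorem fin_dim {α R : Type} [Fintype R] (p : List α → ℝ) (k : ℕ)
    (h : ∀ M : ℕ, ∃ (a : List α → R → ℝ) (b : R → List α → ℝ),
      (∀ u r, a u r ∈ Set.Icc (0 : ℝ) 1) ∧ (∀ r v, b r v ∈ Set.Icc (0 : ℝ) 1) ∧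
      ∀ u v, v.length + k ≤ M → p (u ++ v) = ∑ r, a u r * b r v) :
    FiniteDimensional ℝ (V p) := by
  choose a b ha hb hab using h
  have lim : ∀ f : ℕ → ℝ, (∀ n, f n ∈ Set.Icc (0 : ℝ) 1) →
      ∃ x, Tendsto f (hyperfilter ℕ : Filter ℕ) (𝓝 x) := by
    intro f hf
    obtain ⟨x, _, hx⟩ := (isCompact_Icc (a := (0 : ℝ)) (b := 1)).ultrafilter_le_nhds
      ((hyperfilter ℕ).map f) (by
        rw [le_principal_iff, Ultrafilter.mem_coe, Ultrafilter.mem_map]
        exact Filter.mem_of_superset Filter.univ_mem fun n _ => hf n)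
    exact ⟨x, hx⟩
  choose la hla using fun u r => lim (fun M => a M u r) (fun M => ha M u r)
  choose lb hlb using fun r v => lim (fun M => b M r v) (fun M => hb M r v)
  have key : ∀ u v, p (u ++ v) = ∑ r, la u r * lb r v := by
    intro u v
    have h1 : Tendsto (fun M => ∑ r, a M u r * b M r v) (hyperfilter ℕ : Filter ℕ)
        (𝓝 (∑ r, la u r * lb r v)) :=
      tendsto_finsetSum _ fun r _ => (hla u r).mul (hlb r v)
    have h2 : Tendsto (fun M => ∑ r, a M u r * b M r v) (hyperfilter ℕ : Filter ℕ)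
        (𝓝 (p (u ++ v))) := by
      refine tendsto_const_nhds.congr' ?_
      have h3 : ∀ᶠ M in (hyperfilter ℕ : Filter ℕ), v.length + k ≤ M :=
        Nat.hyperfilter_le_atTop (eventually_ge_atTop _)
      filter_upwards [h3] with M hM
      exact hab M u v hM
    exact tendsto_nhds_unique h2 h1
  have hle : V p ≤ Submodule.span ℝ (Set.range lb) := by
    unfold V
    rw [Submodule.span_le]
    rintro _ ⟨u, rfl⟩
    have : H p u = ∑ r, la u r • lb r := by
      funext v
      rw [Finset.sum_apply]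
      exact key u v
    rw [this]
    exact Submodule.sum_mem _ fun r _ =>
      Submodule.smul_mem _ _ (Submodule.subset_span ⟨r, rfl⟩)
  have : FiniteDimensional ℝ (Submodule.span ℝ (Set.range lb)) :=
    FiniteDimensional.span_of_finite ℝ (Set.finite_range _)
  exact Submodule.finiteDimensional_of_le hle

variable {d q : ℕ}

/-- the cross section -/
noncomputable def Sq (i : Fin d) (k : ℕ) : Finset (Fin d → ℤ) :=
  Finset.Icc (fun l => if l = i then 0 else -(k : ℤ)) (fun l => if l = i then 0 else (k : ℤ))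

/-- the box -/
noncomputable def Bo (i : Fin d) (k M : ℕ) : Finset (Fin d → ℤ) :=
  Finset.Icc (fun l => if l = i then 1 else -(k : ℤ))
    (fun l => if l = i then (M : ℤ) + 1 else (k : ℤ))

open Classical in
/-- the walls -/
noncomputable def Wa (i : Fin d) (k M : ℕ) : Finset (Fin d → ℤ) :=
  (Finset.Icc (fun l => if l = i then 0 else -((k : ℤ) + 1))
    (fun l => if l = i then (M : ℤ) + 2 else (k : ℤ) + 1)).filter fun v =>
      v ∈ bd (Bo i k M : Set (Fin d → ℤ)) ∧ v ∉ Sq i k

theorem mem_Icc_iff {i : Fin d} {a b c e : ℤ} {v : Fin d → ℤ} :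
    v ∈ Finset.Icc (fun l => if l = i then a else b) (fun l => if l = i then c else e) ↔
      (a ≤ v i ∧ v i ≤ c) ∧ ∀ l, l ≠ i → b ≤ v l ∧ v l ≤ e := by
  rw [Finset.mem_Icc, Pi.le_def, Pi.le_def]
  constructor
  · rintro ⟨h1, h2⟩
    have h3 := h1 i
    have h4 := h2 i
    simp only [if_true] at h3 h4
    refine ⟨⟨h3, h4⟩, fun l hl => ?_⟩
    have h5 := h1 l
    have h6 := h2 l
    rw [if_neg hl] at h5 h6
    exact ⟨h5, h6⟩
  · rintro ⟨⟨h1, h2⟩, h3⟩
    constructor
    · intro l
      by_cases hl : l = i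
      · subst hl
        simpa using h1
      · simpa [hl] using (h3 l hl).1
    · intro l
      by_cases hl : l = i
      · subst hl
        simpa using h2
      · simpa [hl] using (h3 l hl).2

theorem mem_Sq {i : Fin d} {k : ℕ} {v : Fin d → ℤ} :
    v ∈ Sq i k ↔ (0 ≤ v i ∧ v i ≤ 0) ∧ ∀ l, l ≠ i → -(k : ℤ) ≤ v l ∧ v l ≤ k := mem_Icc_iff

theorem mem_Bo {i : Fin d} {k M : ℕ} {v : Fin d → ℤ} :
    v ∈ Bo i k M ↔ (1 ≤ v i ∧ v i ≤ M + 1) ∧ ∀ l, l ≠ i → -(k : ℤ) ≤ v l ∧ v l ≤ k := mem_Icc_iff

open Classical in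
theorem bd_cases {i : Fin d} {k M : ℕ} {v : Fin d → ℤ} (hv : v ∈ bd (Bo i k M : Set (Fin d → ℤ))) :
    v ∈ Sq i k ∨ v ∈ Wa i k M := by
  by_cases h : v ∈ Sq i k
  · exact Or.inl h
  · right
    unfold Wa
    refine Finset.mem_filter.2 ⟨?_, hv, h⟩
    obtain ⟨_, u, hu, huv⟩ := hv
    rw [Finset.mem_coe, mem_Bo] at hu
    have h1 : ∀ l, |u l - v l| ≤ 1 := fun l => huv ▸ gd_ge l
    rw [mem_Icc_iff]
    have h2 := abs_le.1 (h1 i)
    refine ⟨⟨by omega, by omega⟩, fun l hl => ?_⟩
    have h3 := abs_le.1 (h1 l)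
    have h4 := hu.2 l hl
    exact ⟨by omega, by omega⟩

theorem Sq_bd {i : Fin d} {k M : ℕ} {v : Fin d → ℤ} (hv : v ∈ Sq i k) :
    v ∈ bd (Bo i k M : Set (Fin d → ℤ)) := by
  rw [mem_Sq] at hv
  refine ⟨?_, v + ln i 1, ?_, ?_⟩
  · rw [Finset.mem_coe, mem_Bo]
    intro h
    omega
  · rw [Finset.mem_coe, mem_Bo, Pi.add_apply, ln_self]
    refine ⟨⟨by omega, by omega⟩, fun l hl => ?_⟩
    rw [Pi.add_apply, ln_ne hl, add_zero]
    exact hv.2 l hl
  · unfold gd
    rw [Finset.sum_eq_single i]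
    · rw [Pi.add_apply, ln_self]
      simp
    · intro l _ hl
      rw [Pi.add_apply, ln_ne hl]
      simp
    · intro h
      exact absurd (Finset.mem_univ i) h

open Classical in
theorem Wa_bd {i : Fin d} {k M : ℕ} {v : Fin d → ℤ} (hv : v ∈ Wa i k M) :
    v ∈ bd (Bo i k M : Set (Fin d → ℤ)) ∧ v ∉ Sq i k := by
  unfold Wa at hv
  exact (Finset.mem_filter.1 hv).2

theorem Wa_dist {i : Fin d} {k M : ℕ} {v : Fin d → ℤ} (hv : v ∈ Wa i k M) {t : ℤ}
    (ht : t + k ≤ M) : (k : ℤ) ≤ gd (ln i t) v := by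
  obtain ⟨⟨hvA, u, hu, huv⟩, hvS⟩ := Wa_bd hv
  rw [Finset.mem_coe, mem_Bo] at hu
  have h1 : ∀ l, |u l - v l| ≤ 1 := fun l => huv ▸ gd_ge l
  have hi := abs_le.1 (h1 i)
  -- the coordinate `i` is at least one
  have h2 : 1 ≤ v i := by
    by_contra hcon
    have h3 : v i = 0 := by omega
    have h4 : u i = 1 := by omega
    have h5 : ∑ l ∈ Finset.univ.erase i, |u l - v l| = 0 := by
      have h6 := Finset.add_sum_erase Finset.univ (fun l => |u l - v l|) (Finset.mem_univ i)
      have h7 : ∑ l, |u l - v l| = 1 := huv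
      rw [h7, h3, h4, sub_zero, abs_one] at h6
      linarith
    apply hvS
    rw [mem_Sq]
    refine ⟨⟨by omega, by omega⟩, fun l hl => ?_⟩
    have h6 := (Finset.sum_eq_zero_iff_of_nonneg (fun _ _ => abs_nonneg _)).1 h5 l
      (Finset.mem_erase.2 ⟨hl, Finset.mem_univ _⟩)
    have h7 : u l = v l := by
      have := abs_eq_zero.1 h6
      omega
    rw [← h7]
    exact hu.2 l hl
  by_cases h3 : v i ≤ M + 1
  · obtain ⟨l, hl, hl'⟩ : ∃ l, l ≠ i ∧ ¬ (-(k : ℤ) ≤ v l ∧ v l ≤ k) := by
      by_contra hcon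
      push Not at hcon
      apply hvA
      rw [Finset.mem_coe, mem_Bo]
      exact ⟨⟨h2, h3⟩, fun l hl => ⟨(hcon l hl).1, (hcon l hl).2⟩⟩
    refine le_trans ?_ (gd_ge l)
    rw [ln_ne hl, le_abs]
    omega
  · refine le_trans ?_ (gd_ge i)
    rw [ln_self, le_abs]
    omega

theorem factor {P : Measure (Cfg d q)} [IsProbabilityMeasure P] {i : Fin d}
    (hP : Inv P (ln i 1)) (hM : Markov P) {k : ℕ}
    (hk : ∀ A B : Set (Fin d → ℤ), (∀ a ∈ A, ∀ b ∈ B, (k : ℤ) ≤ gd a b) →
      Indep (sg A) (sg B) P) (M : ℕ) :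
    ∃ (a : List (Fin q) → (Sq i k → Fin q) → ℝ) (b : (Sq i k → Fin q) → List (Fin q) → ℝ),
      (∀ u r, a u r ∈ Set.Icc (0 : ℝ) 1) ∧ (∀ r v, b r v ∈ Set.Icc (0 : ℝ) 1) ∧
      ∀ u v, v.length + k ≤ M → pw P i (u ++ v) = ∑ r, a u r * b r v := by
  classical
  obtain ⟨β, hβ⟩ := exists_pat (P := P) (Wa i k M)
  set D : Set (Cfg d q) := cyl (Wa i k M : Set (Fin d → ℤ)) β with hD
  set C : (Sq i k → Fin q) → Set (Cfg d q) := fun r => {x | ∀ v : Sq i k, x v = r v} with hC
  have hCD : ∀ r, cyl (bd (Bo i k M : Set (Fin d → ℤ)))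
      (fun v => if h : v ∈ Sq i k then r ⟨v, h⟩ else β v) = C r ∩ D := by
    intro r
    ext x
    constructor
    · intro hx
      constructor
      · intro v
        have := hx v (Sq_bd v.2)
        simpa using this
      · intro v hv
        obtain ⟨h1, h2⟩ := Wa_bd hv
        have := hx v h1
        simpa [h2] using this
    · rintro ⟨h1, h2⟩ v hv
      by_cases h : v ∈ Sq i k
      · simpa [h] using h1 ⟨v, h⟩
      · simpa [h] using h2 v ((bd_cases hv).resolve_left h)
  refine ⟨fun u r => P.real (Ev i (1 - u.length) u ∩ (C r ∩ D)) / P.real D,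
    fun r v => P.real (Ev i 1 v ∩ (C r ∩ D)) / P.real (C r ∩ D), ?_, ?_, ?_⟩
  · intro u r
    refine ⟨div_nonneg measureReal_nonneg measureReal_nonneg, div_le_one_of_le₀ ?_
      measureReal_nonneg⟩
    exact measureReal_mono (Set.inter_subset_right.trans Set.inter_subset_right)
  · intro r v
    refine ⟨div_nonneg measureReal_nonneg measureReal_nonneg, div_le_one_of_le₀ ?_
      measureReal_nonneg⟩
    exact measureReal_mono Set.inter_subset_right
  · intro u v huv
    set U : Set (Cfg d q) := Ev i (1 - u.length) u with hU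
    set W : Set (Cfg d q) := Ev i 1 v with hW
    have h1 : Ev i (1 - u.length) (u ++ v) = U ∩ W := by
      rw [Ev_append, sub_add_cancel]
    have h2 : pw P i (u ++ v) = P.real (U ∩ W) := by
      rw [← h1, Ev_const hP]
      rfl
    -- independence from the walls
    have h3 : P.real ((U ∩ W) ∩ D) = P.real (U ∩ W) * P.real D := by
      have g1 := hk (ln i '' {t | t + k ≤ M}) (Wa i k M : Set (Fin d → ℤ)) (by
        rintro _ ⟨t, ht, rfl⟩ w hw
        exact Wa_dist hw ht)
      have g2 := (Indep_iff _ _ _).1 g1 (U ∩ W) D ?_ (meas_cyl (le_refl _) β)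
      · unfold Measure.real
        rw [g2, ENNReal.toReal_mul]
      · rw [← h1]
        apply Ev_meas
        intro t _ ht
        refine ⟨t, ?_, rfl⟩
        show t + k ≤ M
        rw [List.length_append] at ht
        push_cast at ht
        have : (v.length : ℤ) + k ≤ M := by exact_mod_cast huv
        omega
    -- the Markov property
    have h4 : ∀ r, P.real (C r ∩ ((U ∩ W) ∩ D)) =
        P.real D * ((P.real (U ∩ (C r ∩ D)) / P.real D) *
          (P.real (W ∩ (C r ∩ D)) / P.real (C r ∩ D))) := by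
      intro r
      have g1 := markov_event hM (Bo i k M) (E := W) (F := U) ?_ ?_
        (fun v => if h : v ∈ Sq i k then r ⟨v, h⟩ else β v)
      · rw [hCD] at g1
        have g2 : C r ∩ ((U ∩ W) ∩ D) = W ∩ (U ∩ (C r ∩ D)) := by
          ext x
          simp only [Set.mem_inter_iff]
          tauto
        rw [g2]
        by_cases g3 : P.real (C r ∩ D) = 0
        · have g4 : P.real (W ∩ (U ∩ (C r ∩ D))) = 0 := by
            apply le_antisymm _ measureReal_nonneg
            rw [← g3]
            exact measureReal_mono (Set.inter_subset_right.trans Set.inter_subset_right)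
          rw [g4, g3, div_zero, mul_zero, mul_zero]
        · field_simp
          rw [g1]
          ring
      · apply Ev_meas
        intro t ht1 ht2
        rw [Finset.mem_coe, mem_Bo, ln_self]
        have : (v.length : ℤ) + k ≤ M := by exact_mod_cast huv
        refine ⟨⟨by omega, by omega⟩, fun l hl => ?_⟩
        rw [ln_ne hl]
        exact ⟨by omega, by omega⟩
      · apply Ev_meas
        intro t ht1 ht2
        rw [Set.mem_compl_iff, Finset.mem_coe, mem_Bo, ln_self]
        intro hcon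
        omega
    have h5 : P.real (U ∩ W) * P.real D = P.real D * ∑ r,
        (P.real (U ∩ (C r ∩ D)) / P.real D) * (P.real (W ∩ (C r ∩ D)) / P.real (C r ∩ D)) := by
      rw [← h3, ← sum_pat (P := P) (Sq i k), Finset.mul_sum]
      · exact Finset.sum_congr rfl fun r _ => h4 r
      · refine ((Ev_meas' i u _).inter (Ev_meas' i v _)).inter ?_
        exact sg_le _ _ (meas_cyl (le_refl _) β)
    rw [h2]
    have h6 : P.real D ≠ 0 := ne_of_gt hβ
    rw [mul_comm] at h5
    exact mul_left_cancel₀ h6 h5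

/-- A finitely dependent Markov random field which is invariant under the translation by one in
the direction `i` is constant on arbitrarily long segments of the direction `i` with positive
probability. -/
theorem segments {P : Measure (Cfg d q)} [IsProbabilityMeasure P] {i : Fin d}
    (hP : Inv P (ln i 1)) (hF : FinDep P) (hM : Markov P) :
    ∃ c : Fin q, ∀ n : ℕ, 0 < P.real {x | ∀ t : ℕ, t < n → x (ln i t) = c} := by
  obtain ⟨k, hk⟩ := hF
  exact words hP hk (fin_dim _ k fun M => factor hP hM hk M)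

end Pool.Agent.H60.FD
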